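import Pool.Agent.Work.MP_223b32_t5.Car5
import Pool.Agent.Work.MP_223b32_t4.Interface5

/-!
# Dimension five: the pure theorem
-/

namespace Pool.T5

open Pool.T4

theorem tr_add {G U : Type} [Group G] [AddCommGroup U] [DistribMulAction G U] (g : G)
    (J J' : Multiset U) : tr g (J + J') = tr g J + tr g J' := Multiset.map_add _ _ _

theorem tr_ng {G U : Type} [Group G] [AddCommGroup U] [DistribMulAction G U] (g : G)
    (J : Multiset U) : tr g (ng J) = ng (tr g J) := by
  unfold tr ng
  rw [Multiset.map_map, Multiset.map_map]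
  exact Multiset.map_congr rfl fun v _ => smul_neg g v

theorem p_P55 (hCA : Stmt_CA5) : Stmt_P55 := by
  intro G U _ _ _ _ K R J hR hcard hJR hJ4 hsum hn
  rcases p_CAR5 G U K R J hR hcard hJR hsum (by rw [hJ4]; decide) hn with h | h | ⟨_, v0, h⟩
  · exfalso
    rw [h] at hJ4
    simp at hJ4
  · left
    have h2 : J + ng J = R := h.eq.symm
    rw [h2]
    exact ⟨le_refl _, h⟩
  rcases p_SGN5 G U K R J v0 hR hJ4 h hsum hn with hs | ⟨a, b, hE⟩
  · left
    have hst : ∀ g : G, tr g (J + ng J) = J + ng J := by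
      intro g
      rw [tr_add, tr_ng]
      rcases hs g with h1 | h1
      · rw [h1]
      · rw [h1, ng_ng, add_comm]
    have hu : ∀ g : G, g • v0 = v0 ∨ g • v0 = -v0 := by
      intro g
      have h1 := hR.stable g
      rw [h, tr_add, hst] at h1
      have h2 := add_left_cancel h1
      have h3 : g • v0 ∈ ({v0, -v0} : Multiset U) := by
        rw [← h2]
        exact Multiset.mem_map_of_mem _ (Multiset.mem_cons_self _ _)
      rcases Multiset.mem_cons.1 h3 with h4 | h4
      · exact Or.inl h4
      · exact Or.inr (Multiset.mem_singleton.1 h4)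
    have hM : Miss K R J v0 := ⟨hR, hJ4, h, hsum, hn⟩
    refine ⟨?_, hCA G U K R J v0 hM hu, hJ4, rfl, hsum, hn⟩
    rw [h]
    exact Multiset.le_add_right _ _
  · right
    refine ⟨a, b, ?_⟩
    rw [hE]
    simp only [Multiset.insert_eq_cons, ← Multiset.singleton_add]
    abel

end Pool.T5
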