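import Pool.Agent.Work.MP_223b32_t5.Sgn5
import Pool.Agent.Work.MP_223b32_t4.CAR

/-!
# Dimension five: the shape of a relation
-/

namespace Pool.T5

open Pool.T4

/-- (CAR5) -/
def Stmt_CAR5 : Prop :=
  ∀ (G U : Type) [Group G] [AddCommGroup U] [Module ℚ U] [DistribMulAction G U] (K : Core G U)
    (R J : Multiset U), IsR K R → R.card ≤ 10 → J ≤ R → J.sum = 0 → Even J.card → NoPair J →
    J = 0 ∨ Good K R J ∨ (J.card = 4 ∧ ∃ v0 : U, R = J + ng J + {v0, -v0})

theorem ng_add {U : Type} [AddCommGroup U] (J J' : Multiset U) : ng (J + J') = ng J + ng J' :=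
  Multiset.map_add _ _ _

theorem ng_ng {U : Type} [AddCommGroup U] (J : Multiset U) : ng (ng J) = J := by
  unfold ng
  rw [Multiset.map_map]
  have : (fun v : U => -v) ∘ (fun v : U => -v) = id := by
    funext v
    exact neg_neg v
  rw [this, Multiset.map_id]

theorem p_CAR5 : Stmt_CAR5 := by
  classical
  intro G U _ _ _ _ K R J hR hcard hJR hsum heven hJ
  by_cases h8 : R.card ≤ 8
  · rcases p_CAR G U K R J hR h8 hJR hsum heven hJ with h | h
    · exact Or.inl h
    · exact Or.inr (Or.inl h)
  have hng := CAR_ng K R hR
  have hle : J + ng J ≤ R := by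
    rw [Multiset.le_iff_count]
    intro v
    rw [Multiset.count_add, CAR_count_ng]
    have e1 : J.count v ≤ R.count v := Multiset.le_iff_count.1 hJR v
    have e2 : J.count (-v) ≤ R.count (-v) := Multiset.le_iff_count.1 hJR (-v)
    have e3 : R.count (-v) = R.count v := by
      rw [← CAR_count_ng, hng]
    by_cases hv : v = 0
    · subst hv
      rw [neg_zero]
      have h1 : J.count (0 : U) ≤ 1 := by
        by_contra h2
        refine hJ 0 0 ?_ (add_zero 0)
        have h3 : ({0, 0} : Multiset U) = Multiset.replicate 2 0 := rfl
        rw [h3, ← Multiset.le_count_iff_replicate_le]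
        omega
      rcases Nat.eq_zero_or_pos (J.count (0 : U)) with h2 | h2
      · omega
      · have h3 : (0 : U) ∈ R := Multiset.mem_of_le hJR (Multiset.count_pos.1 h2)
        have h4 := CAR_zero K R hR h3 rfl
        omega
    · by_cases h1 : v ∈ J
      · have h2 : J.count (-v) = 0 := Multiset.count_eq_zero.2 (CAR_pair J hJ v hv h1)
        omega
      · have h2 : J.count v = 0 := Multiset.count_eq_zero.2 h1
        omega
  have hc := Multiset.card_le_card hle
  rw [Multiset.card_add, CAR_ng_card] at hc
  obtain ⟨k, hk⟩ := heven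
  have hk2 : k = 0 ∨ k = 1 ∨ k = 2 := by omega
  rcases hk2 with h | h | h
  · left
    rw [← Multiset.card_eq_zero]
    omega
  · exfalso
    have h2 : J.card = 2 := by omega
    obtain ⟨a, b, hab⟩ := Multiset.card_eq_two.1 h2
    refine hJ a b (le_of_eq hab.symm) ?_
    rw [hab] at hsum
    have h3 : ({a, b} : Multiset U).sum = a + b := by
      have h4 : ({a, b} : Multiset U) = a ::ₘ {b} := rfl
      rw [h4, Multiset.sum_cons, Multiset.sum_singleton]
    rw [h3] at hsum
    exact hsum
  · right; right
    have h2 : J.card = 4 := by omega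
    refine ⟨h2, ?_⟩
    obtain ⟨Q, hQ⟩ := Multiset.le_iff_exists_add.1 hle
    have hQn : ng Q = Q := by
      have h3 : J + ng J + ng Q = J + ng J + Q := by
        have h4 : ng (J + ng J + Q) = J + ng J + Q := by rw [← hQ, hng]
        rw [ng_add, ng_add, ng_ng, add_comm (ng J) J] at h4
        exact h4
      exact add_left_cancel h3
    have hQc : Q.card ≤ 2 := by
      have h3 := congrArg Multiset.card hQ
      rw [Multiset.card_add, Multiset.card_add, CAR_ng_card] at h3
      omega
    have hQ1 : 1 ≤ Q.card := by
      have h3 := congrArg Multiset.card hQ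
      rw [Multiset.card_add, Multiset.card_add, CAR_ng_card] at h3
      omega
    have hQ12 : Q.card = 1 ∨ Q.card = 2 := by omega
    rcases hQ12 with h3 | h3
    · -- an odd number of zeros
      exfalso
      obtain ⟨u, hu⟩ := Multiset.card_eq_one.1 h3
      rw [hu] at hQn
      have hu0 : u = 0 := by
        have h4 : -u = u := by
          have : ({-u} : Multiset U) = {u} := hQn
          exact Multiset.singleton_inj.1 this
        exact neg_ne u h4.symm
      have h5 : R.count (0 : U) = 2 * J.count 0 + 1 := by
        rw [hQ, Multiset.count_add, Multiset.count_add, CAR_count_ng, neg_zero, hu, hu0,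
          Multiset.count_singleton_self]
        ring
      have h6 : (0 : U) ∈ R := Multiset.count_pos.1 (by omega)
      obtain ⟨n, hn⟩ := hR.ht 0 h6
      have h7 : orb K.D (0 : U) = {0} := by
        ext y
        constructor
        · rintro ⟨d, _, rfl⟩
          exact smul_zero d
        · intro hy
          rw [Set.mem_singleton_iff] at hy
          exact ⟨1, K.D.one_mem, by rw [hy, smul_zero]⟩
      have h8 : cnt (0 : U) R = R.count 0 := rfl
      rw [h7, Set.ncard_singleton, map_zero, zero_add, mul_one, mul_one, h8] at hn
      have h9 : R.count (0 : U) = 2 * n := by exact_mod_cast hn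
      omega
    · obtain ⟨u, u', hu⟩ := Multiset.card_eq_two.1 h3
      refine ⟨u, ?_⟩
      have hu' : ({u, u'} : Multiset U) = {u, -u} := by
        rw [hu] at hQn
        have h4 : ({-u, -u'} : Multiset U) = {u, u'} := by
          rw [← hQn]
          simp [ng]
        have h5 : -u ∈ ({u, u'} : Multiset U) := by
          rw [← h4]
          exact Multiset.mem_cons_self _ _
        rcases Multiset.mem_cons.1 h5 with h6 | h6
        · have hu0 : u = 0 := neg_ne u h6.symm
          subst hu0
          have h7 : -u' = u' := by
            rw [neg_zero] at h4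
            have h8 : (0 : U) ::ₘ ({-u'} : Multiset U) = 0 ::ₘ {u'} := h4
            rw [Multiset.cons_inj_right] at h8
            exact Multiset.singleton_inj.1 h8
          rw [neg_ne u' h7.symm, neg_zero]
        · rw [Multiset.mem_singleton.1 h6]
      rw [hQ, hu, hu']

end Pool.T5
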