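import Pool.Agent.Work.MP_223b32_t5.Quad

/-!
# The core of the case of dimension five

Five pairs of opposite vectors, permuted by `G`, with two relations.
-/

namespace Pool.T5

variable {U G : Type} [AddCommGroup U] [Group G] [DistribMulAction G U]

/-- `u` is `v` or `-v`. -/
def PM (u v : U) : Prop := u = v ∨ u = -v

theorem PM.symm {u v : U} (h : PM u v) : PM v u := by
  rcases h with h | h
  · exact Or.inl h.symm
  · exact Or.inr (by rw [h, neg_neg])

theorem PM.trans {u v x : U} (h : PM u v) (h' : PM v x) : PM u x := by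
  rcases h with h | h <;> rcases h' with h' | h'
  · exact Or.inl (h.trans h')
  · exact Or.inr (h.trans h')
  · exact Or.inr (by rw [h, h'])
  · exact Or.inl (by rw [h, h', neg_neg])

theorem PM.smul {u v : U} (g : G) (h : PM u v) : PM (g • u) (g • v) := by
  rcases h with h | h
  · exact Or.inl (by rw [h])
  · exact Or.inr (by rw [h, smul_neg])

/-- The set of all `± t i`. -/
def pairs {ι : Type} (t : ι → U) : Set U := {u | ∃ i, PM u (t i)}

theorem mem_pairs {ι : Type} (t : ι → U) (i : ι) : t i ∈ AddSubgroup.closure (pairs t) :=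
  AddSubgroup.subset_closure ⟨i, Or.inl rfl⟩

/-- `G` permutes the pairs `± t i`. -/
def Perms (G : Type) {U : Type} [AddCommGroup U] [Group G] [DistribMulAction G U] {ι : Type}
    (t : ι → U) : Prop :=
  ∀ g : G, ∃ f : Equiv.Perm ι, ∀ i, PM (g • t i) (t (f i))

theorem core1 {B : U → U → ℝ} (t : Fin 5 → U) (hB : Form G (pairs t) B)
    (hp : Perms G t)
    (h1 : t 1 + t 2 + t 3 + t 4 = 0) (h2 : t 0 + t 2 + t 3 - t 4 = 0)
    (hc : ∃ g : G, PM (g • t 1) (t 0))
    (n3 : t 3 ≠ 0) (n4 : t 4 ≠ 0) (n23 : t 2 + t 3 ≠ 0) (n24 : t 2 + t 4 ≠ 0)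
    (m24 : t 2 ≠ t 4)
    (g₀ : G) (hg₀ : PM (g₀ • t 4) (t 2)) : False := by
  set C := AddSubgroup.closure (pairs t) with hC
  have mem : ∀ i, t i ∈ C := mem_pairs t
  -- the values of the form
  set β := B (t 4) (t 4) with hβ
  have hβ0 : 0 < β := hB.posS (mem 4) n4
  set A12 := B (t 2) (t 3) with hA12
  set A22 := B (t 3) (t 3) with hA22
  set p1 := B (t 2) (t 4) with hp1
  set p2 := B (t 3) (t 4) with hp2
  have hA11 : B (t 2) (t 2) = β := by
    have e := hB.inv' g₀ (mem 4)
    rcases hg₀ with h | h
    · rw [h] at e; exact e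
    · rw [h, hB.neg_neg] at e; exact e
  have ev1 : t 1 = -(t 2 + t 3 + t 4) := by
    have : t 1 + (t 2 + t 3 + t 4) = 0 := by rw [← h1]; abel
    exact eq_neg_of_add_eq_zero_left this
  have ev0 : t 0 = t 4 - t 2 - t 3 := by
    have : t 0 - (t 4 - t 2 - t 3) = 0 := by rw [← h2]; abel
    exact sub_eq_zero.1 this
  have q1 : B (t 1) (t 1) = β + β + A22 + 2 * A12 + 2 * p1 + 2 * p2 := by
    rw [ev1, hB.neg_neg]
    simp only [hB.add_left, hB.add_right]
    rw [hB.symm (t 3) (t 2), hB.symm (t 4) (t 2), hB.symm (t 4) (t 3), hA11, ← hβ, ← hA12,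
      ← hA22, ← hp1, ← hp2]
    ring
  have q0 : B (t 0) (t 0) = β + β + A22 + 2 * A12 - 2 * p1 - 2 * p2 := by
    rw [ev0]
    simp only [hB.sub_left, hB.sub_right]
    rw [hB.symm (t 3) (t 2), hB.symm (t 4) (t 2), hB.symm (t 4) (t 3), hA11, ← hβ, ← hA12,
      ← hA22, ← hp1, ← hp2]
    ring
  have q01 : B (t 0) (t 0) = B (t 1) (t 1) := by
    obtain ⟨g, hg⟩ := hc
    have e := hB.inv' g (mem 1)
    rcases hg with h | h
    · rw [h] at e; exact e
    · rw [h, hB.neg_neg] at e; exact e
  have hp12 : p2 = -p1 := by rw [q0, q1] at q01; linarith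
  have hqs : 0 < β + A22 + 2 * A12 := by
    have e := hB.posS (AddSubgroup.add_mem _ (mem 2) (mem 3)) n23
    simp only [hB.add_left, hB.add_right] at e
    rw [hB.symm (t 3) (t 2), hA11, ← hA12, ← hA22] at e
    linarith
  have hN0 : B (t 0) (t 0) = β + (β + A22 + 2 * A12) := by rw [q0, hp12]; ring
  have hN1 : B (t 1) (t 1) = β + (β + A22 + 2 * A12) := by rw [q1, hp12]; ring
  have qPM : ∀ (g : G) (i j : Fin 5), PM (g • t i) (t j) → B (t i) (t i) = B (t j) (t j) := by
    intro g i j h
    have e := hB.inv' g (mem i)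
    rcases h with h | h
    · rw [h] at e; exact e.symm
    · rw [h, hB.neg_neg] at e; exact e.symm
  -- `t 0` is not conjugate to `t 3` by an element of this kind
  have key : ∀ g : G, PM (g • t 0) (t 0) ∨ PM (g • t 0) (t 1) := by
    intro g
    obtain ⟨f, hf⟩ := hp g
    have hf0 := hf 0
    have hq := qPM g 0 (f 0) hf0
    generalize hj : f 0 = j at hf0 hq
    fin_cases j
    · exact Or.inl hf0
    · exact Or.inr hf0
    · exfalso
      change B (t 0) (t 0) = B (t 2) (t 2) at hq
      rw [hN0, hA11] at hq
      linarith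
    · exfalso
      change B (t 0) (t 0) = B (t 3) (t 3) at hq
      rw [hN0, ← hA22] at hq
      have hA : A12 = -β := by linarith
      -- the relation without `t 3`
      have hrel : ∃ a b c d : ℝ, (a = 1 ∨ a = -1) ∧ (b = 1 ∨ b = -1) ∧ (c = 1 ∨ c = -1) ∧
          (d = 1 ∨ d = -1) ∧ ∀ x : U, a * B (t 0) x + b * B (t 1) x + c * B (t 2) x
            + d * B (t 4) x = 0 := by
        have hs : ∀ i, ∃ e : ℝ, (e = 1 ∨ e = -1) ∧ ∀ x, B (g • t i) x = e * B (t (f i)) x := by
          intro i
          rcases hf i with h | h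
          · exact ⟨1, Or.inl rfl, fun x => by rw [h, one_mul]⟩
          · exact ⟨-1, Or.inr rfl, fun x => by rw [h, hB.neg_left]; ring⟩
        choose e he1 he2 using hs
        have hsum : ∀ x, ∑ i : Fin 5, (if i = 0 then 0 else e i) * B (t (f i)) x = 0 := by
          intro x
          have h3 : B (g • (t 1 + t 2 + t 3 + t 4)) x = 0 := by
            rw [h1, smul_zero, hB.zero_left]
          rw [smul_add, smul_add, smul_add, hB.add_left, hB.add_left, hB.add_left, he2, he2, he2,
            he2] at h3
          rw [Fin.sum_univ_five]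
          simp only [Fin.isValue, if_true, zero_mul, zero_add]
          rw [if_neg (by decide), if_neg (by decide), if_neg (by decide), if_neg (by decide)]
          exact h3
        let y : Fin 5 → ℝ := fun j => if f.symm j = 0 then 0 else e (f.symm j)
        have hsum2 : ∀ x, ∑ j : Fin 5, y j * B (t j) x = 0 := by
          intro x
          rw [← hsum x, ← Equiv.sum_comp f]
          refine Finset.sum_congr rfl fun i _ => ?_
          simp only [y, Equiv.symm_apply_apply]
        have hy3 : y 3 = 0 := by
          have : f.symm 3 = 0 := by rw [Equiv.symm_apply_eq]; exact hj.symm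
          simp only [y, this, if_true]
        have hyj : ∀ j, j ≠ 3 → (y j = 1 ∨ y j = -1) := by
          intro j hj3
          have : f.symm j ≠ 0 := by
            intro h
            apply hj3
            rw [Equiv.symm_apply_eq] at h
            rw [h, hj]
            rfl
          simp only [y, if_neg this]
          exact he1 _
        refine ⟨y 0, y 1, y 2, y 4, hyj 0 (by decide), hyj 1 (by decide), hyj 2 (by decide),
          hyj 4 (by decide), fun x => ?_⟩
        have h4 := hsum2 x
        rw [Fin.sum_univ_five, hy3, zero_mul, add_zero] at h4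
        exact h4
      obtain ⟨a, b, c, d, ha, hb, hc', hd, hr⟩ := hrel
      have e2 := hr (t 2)
      have e4 := hr (t 4)
      have w02 : B (t 0) (t 2) = p1 - β - A12 := by
        rw [ev0]
        simp only [hB.sub_left]
        rw [hB.symm (t 4) (t 2), hB.symm (t 3) (t 2), hA11]
      have w12 : B (t 1) (t 2) = -(β + A12 + p1) := by
        rw [ev1, hB.neg_left]
        simp only [hB.add_left]
        rw [hB.symm (t 4) (t 2), hB.symm (t 3) (t 2), hA11]
      have w04 : B (t 0) (t 4) = β - p1 - p2 := by
        rw [ev0]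
        simp only [hB.sub_left]
        rfl
      have w14 : B (t 1) (t 4) = -(p1 + p2 + β) := by
        rw [ev1, hB.neg_left]
        simp only [hB.add_left]
        rfl
      rw [w02, w12, hA11, hB.symm (t 4) (t 2), ← hp1, hA] at e2
      rw [w04, w14, ← hp1, ← hβ, hp12] at e4
      have k2 : (a - b + d) * p1 = -(c * β) := by linarith
      have k4 : (a - b + d) * β = -(c * p1) := by linarith
      have hp1s : p1 = β ∨ p1 = -β := by
        rcases ha with rfl | rfl <;> rcases hb with rfl | rfl <;> rcases hc' with rfl | rfl <;>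
          rcases hd with rfl | rfl <;>
          first
            | (left; linarith)
            | (right; linarith)
            | (exfalso; nlinarith)
      rcases hp1s with h | h
      · have e : B (t 2 - t 4) (t 2 - t 4) = 0 := by
          simp only [hB.sub_left, hB.sub_right]
          rw [hB.symm (t 4) (t 2), hA11, ← hp1, ← hβ, h]
          ring
        exact m24 (sub_eq_zero.1 (hB.pos _ (AddSubgroup.sub_mem _ (mem 2) (mem 4)) e))
      · have e : B (t 2 + t 4) (t 2 + t 4) = 0 := by
          simp only [hB.add_left, hB.add_right]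
          rw [hB.symm (t 4) (t 2), hA11, ← hp1, ← hβ, h]
          ring
        exact n24 (hB.pos _ (AddSubgroup.add_mem _ (mem 2) (mem 4)) e)
    · exfalso
      change B (t 0) (t 0) = B (t 4) (t 4) at hq
      rw [hN0, ← hβ] at hq
      linarith
  have key1 : ∀ g : G, PM (g • t 1) (t 0) ∨ PM (g • t 1) (t 1) := by
    intro g
    obtain ⟨k, hk⟩ := hc
    -- `t 1 = ± k⁻¹ t 0`
    have h3 : PM (t 1) (k⁻¹ • t 0) := by
      have := PM.smul k⁻¹ hk
      rwa [inv_smul_smul] at this
    have h4 : PM (g • t 1) ((g * k⁻¹) • t 0) := by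
      have := PM.smul g h3
      rwa [← mul_smul] at this
    rcases key (g * k⁻¹) with h | h
    · exact Or.inl (h4.trans h)
    · exact Or.inr (h4.trans h)
  have d4 : t 0 - t 1 = t 4 + t 4 := by rw [ev0, ev1]; abel
  have s23 : t 0 + t 1 = -((t 2 + t 3) + (t 2 + t 3)) := by rw [ev0, ev1]; abel
  have n01 : ¬ PM (t 0) (t 1) := by
    rintro (h | h)
    · rw [h, sub_self] at d4
      exact n4 (hB.two (mem 4) d4.symm)
    · rw [h, neg_add_cancel] at s23
      exact n23 (hB.two (AddSubgroup.add_mem _ (mem 2) (mem 3)) (neg_eq_zero.1 s23.symm))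
  have hg2 : g₀ • t 0 - g₀ • t 1 = g₀ • t 4 + g₀ • t 4 := by rw [← smul_sub, d4, smul_add]
  -- `a₁ = ± b` or `a₁ = ± (a₁ + a₂)`
  have hcase : PM (t 2) (t 4) ∨ PM (t 2) (t 2 + t 3) := by
    have m4 := mem 4
    have m2 := mem 2
    have m23 := AddSubgroup.add_mem _ (mem 2) (mem 3)
    have hfin : ∀ u, PM u (t 2) → (PM (u + u) (t 0 - t 1) ∨ PM (u + u) (t 0 + t 1)) →
        PM (t 2) (t 4) ∨ PM (t 2) (t 2 + t 3) := by
      intro u hu h
      have mu : u ∈ C := by
        rcases hu with rfl | rfl
        · exact m2
        · exact AddSubgroup.neg_mem _ m2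
      rcases h with h | h
      · left
        rw [d4] at h
        refine hu.symm.trans ?_
        rcases h with h | h
        · exact Or.inl (hB.two_inj mu m4 h)
        · exact Or.inr (hB.two_inj mu (AddSubgroup.neg_mem _ m4) (by rw [h]; abel))
      · right
        rw [s23] at h
        refine hu.symm.trans ?_
        rcases h with h | h
        · exact Or.inr (hB.two_inj mu (AddSubgroup.neg_mem _ m23) (by rw [h]; abel))
        · exact Or.inl (hB.two_inj mu m23 (by rw [h]; abel))
    refine hfin (g₀ • t 4) hg₀ ?_
    rw [← hg2]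
    rcases key g₀ with h | h <;> rcases key1 g₀ with h' | h'
    · -- both conjugate to `t 0`
      exfalso
      apply n01
      have := PM.smul g₀⁻¹ (h.trans h'.symm)
      rwa [inv_smul_smul, inv_smul_smul] at this
    · rcases h with h | h <;> rcases h' with h' | h' <;> rw [h, h']
      · left; left; rfl
      · right; left; abel
      · right; right; abel
      · left; right; abel
    · rcases h with h | h <;> rcases h' with h' | h' <;> rw [h, h']
      · left; right; abel
      · right; left; abel
      · right; right; abel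
      · left; left; abel
    · exfalso
      apply n01
      have := PM.smul g₀⁻¹ (h.trans h'.symm)
      rwa [inv_smul_smul, inv_smul_smul] at this
  rcases hcase with h | h
  · rcases h with h | h
    · exact m24 h
    · exact n24 (by rw [h, neg_add_cancel])
  · rcases h with h | h
    · exact n3 (by
        have : t 3 = (t 2 + t 3) - t 2 := by abel
        rw [this, ← h, sub_self])
    · -- `a₂ = -2 a₁`
      have e3 : t 3 = -(t 2 + t 2) := by
        have : t 2 + (t 2 + t 3) = 0 := by
          nth_rewrite 1 [h]
          exact neg_add_cancel _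
        have h5 : t 3 + (t 2 + t 2) = 0 := by rw [← this]; abel
        exact eq_neg_of_add_eq_zero_left h5
      have a12 : A12 = -(β + β) := by
        rw [hA12, e3, hB.neg_right, hB.add_right, hA11]
      have a22 : A22 = 4 * β := by
        rw [hA22, e3, hB.neg_neg]
        simp only [hB.add_left, hB.add_right]
        rw [hA11]; ring
      have hb : PM (g₀⁻¹ • t 2) (t 4) := by
        have := PM.smul g₀⁻¹ hg₀.symm
        rwa [inv_smul_smul] at this
      have hb3 : PM (g₀⁻¹ • t 3) (t 4 + t 4) := by
        rw [e3, smul_neg, smul_add]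
        rcases hb with h' | h' <;> rw [h']
        · exact Or.inr rfl
        · exact Or.inl (by abel)
      obtain ⟨f, hf⟩ := hp g₀⁻¹
      have hf3 : PM (t 4 + t 4) (t (f 3)) := hb3.symm.trans (hf 3)
      have hq4 : B (t (f 3)) (t (f 3)) = 4 * β := by
        have e : B (t 4 + t 4) (t 4 + t 4) = 4 * β := by
          simp only [hB.add_left, hB.add_right]
          ring
        rcases hf3 with h' | h'
        · rw [← h']; exact e
        · rw [← hB.neg_neg, ← h']; exact e
      generalize f 3 = j at hf3 hq4
      fin_cases j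
      · change B (t 0) (t 0) = 4 * β at hq4
        rw [hN0, a12, a22] at hq4
        linarith
      · change B (t 1) (t 1) = 4 * β at hq4
        rw [hN1, a12, a22] at hq4
        linarith
      · change B (t 2) (t 2) = 4 * β at hq4
        rw [hA11] at hq4
        linarith
      · change PM (t 4 + t 4) (t 3) at hf3
        rw [e3] at hf3
        rcases hf3 with h' | h'
        · have := hB.two_inj (mem 4) (AddSubgroup.neg_mem _ (mem 2)) (by rw [h']; abel)
          exact n24 (by rw [this]; abel)
        · have := hB.two_inj (mem 4) (mem 2) (by rw [h']; abel)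
          exact m24 this.symm
      · change B (t 4) (t 4) = 4 * β at hq4
        linarith

end Pool.T5
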