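import Pool.Agent.Work.MP_223b32_t5.Sgn

/-!
# Dimension five: no flipped vector
-/

namespace Pool.T5

open Pool.T4

variable {U G : Type} [AddCommGroup U] [Group G] [DistribMulAction G U]

/-- The flipped vector is fixed up to sign. -/
theorem core2 {B : U → U → ℝ} (t : Fin 5 → U) (hB : Form G (pairs t) B)
    (hp : Perms G t)
    (h1 : t 1 + t 2 + t 3 + t 4 = 0) (h2 : t 0 + t 2 + t 3 - t 4 = 0)
    (hc : ∃ g : G, PM (g • t 1) (t 0))
    (n2 : t 2 ≠ 0) (n3 : t 3 ≠ 0) (n4 : t 4 ≠ 0) (n23 : t 2 + t 3 ≠ 0) (n24 : t 2 + t 4 ≠ 0)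
    (n34 : t 3 + t 4 ≠ 0) (m24 : t 2 ≠ t 4) (m34 : t 3 ≠ t 4) (g : G) : PM (g • t 4) (t 4) := by
  by_contra hcon
  obtain ⟨f, hf⟩ := hp g
  have hf4 := hf 4
  have mem : ∀ i, t i ∈ AddSubgroup.closure (pairs t) := mem_pairs t
  -- the norm of `t 4` is smaller than the one of `t 0` and `t 1`
  have ev1 : t 1 = -((t 2 + t 3) + t 4) := by
    have : t 1 + ((t 2 + t 3) + t 4) = 0 := by rw [← h1]; abel
    exact eq_neg_of_add_eq_zero_left this
  have ev0 : t 0 = t 4 - (t 2 + t 3) := by
    have : t 0 - (t 4 - (t 2 + t 3)) = 0 := by rw [← h2]; abel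
    exact sub_eq_zero.1 this
  have q01 : B (t 0) (t 0) = B (t 1) (t 1) := by
    obtain ⟨k, hk⟩ := hc
    have e := hB.inv' k (mem 1)
    rcases hk with h | h
    · rw [h] at e; exact e
    · rw [h, hB.neg_neg] at e; exact e
  have hqs := hB.posS (AddSubgroup.add_mem _ (mem 2) (mem 3)) n23
  have w0 : B (t 0) (t 0) = B (t 4) (t 4) - 2 * B (t 2 + t 3) (t 4)
      + B (t 2 + t 3) (t 2 + t 3) := by
    rw [ev0]
    rw [hB.sub_left, hB.sub_right, hB.sub_right, hB.symm (t 4) (t 2 + t 3)]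
    ring
  have w1 : B (t 1) (t 1) = B (t 4) (t 4) + 2 * B (t 2 + t 3) (t 4)
      + B (t 2 + t 3) (t 2 + t 3) := by
    rw [ev1, hB.neg_neg]
    generalize t 2 + t 3 = s
    rw [hB.add_left s (t 4), hB.add_right s s (t 4), hB.add_right (t 4) s (t 4),
      hB.symm (t 4) s]
    ring
  have hq : B (t 4) (t 4) = B (t (f 4)) (t (f 4)) := by
    have e := hB.inv' g (mem 4)
    rcases hf4 with h | h
    · rw [h] at e; exact e.symm
    · rw [h, hB.neg_neg] at e; exact e.symm
  generalize f 4 = j at hf4 hq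
  fin_cases j
  · change B (t 4) (t 4) = B (t 0) (t 0) at hq
    linarith
  · change B (t 4) (t 4) = B (t 1) (t 1) at hq
    linarith
  · exact core1 t hB hp h1 h2 hc n3 n4 n23 n24 m24 g hf4
  · -- exchange `t 2` and `t 3`
    let t' : Fin 5 → U := ![t 0, t 1, t 3, t 2, t 4]
    let σ : Equiv.Perm (Fin 5) := Equiv.swap 2 3
    have hσ : ∀ i, PM (t' i) (t (σ i)) := by
      intro i
      left
      fin_cases i <;> rfl
    have hp' : Perms G t' := hp.congr σ hσ
    have hB' : Form G (pairs t') B := by rw [pairs_congr σ hσ]; exact hB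
    exact core1 t' hB' hp' (by change t 1 + t 3 + t 2 + t 4 = 0; rw [← h1]; abel)
      (by change t 0 + t 3 + t 2 - t 4 = 0; rw [← h2]; abel) hc n2 n4
      (by change t 3 + t 2 ≠ 0; rw [add_comm]; exact n23) n34 m34 g hf4
  · exact hcon hf4

theorem two_ne {U : Type} [AddCommGroup U] [Module ℚ U] (u : U) (h : u + u = 0) : u = 0 := by
  have h1 : (2 : ℚ) • u = 0 := by rw [two_smul]; exact h
  exact (smul_eq_zero.1 h1).resolve_left (by norm_num)

theorem neg_ne {U : Type} [AddCommGroup U] [Module ℚ U] (u : U) (h : u = -u) : u = 0 :=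
  two_ne u (by nth_rewrite 2 [h]; exact add_neg_cancel u)

/-- There is no flipped vector. -/
theorem flip {G U : Type} [Group G] [AddCommGroup U] [Module ℚ U] [DistribMulAction G U]
    (K : Core G U) (R : Multiset U) (hR : IsR K R) (v0 v1 a1 a2 b : U)
    (hRt : R = dbl (![v0, v1, a1, a2, b] : Fin 5 → U))
    (h1 : v1 + a1 + a2 + b = 0) (h2 : v0 + a1 + a2 - b = 0)
    (hc : ∃ g : G, PM (g • v1) v0)
    (n2 : a1 ≠ 0) (n3 : a2 ≠ 0) (n4 : b ≠ 0) (n23 : a1 + a2 ≠ 0) (n24 : a1 + b ≠ 0)
    (n34 : a2 + b ≠ 0) (m24 : a1 ≠ b) (m34 : a2 ≠ b) : False := by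
  classical
  set t : Fin 5 → U := ![v0, v1, a1, a2, b] with ht
  have hstab : ∀ g : G, dbl (fun i => g • t i) = dbl t := by
    intro g
    have h3 := hR.stable g
    rw [hRt] at h3
    refine Eq.trans ?_ h3
    unfold dbl tr
    have h4 : Multiset.map (fun v => g • v) (∑ i, ({t i, -t i} : Multiset U))
        = ∑ i, Multiset.map (fun v => g • v) ({t i, -t i} : Multiset U) :=
      map_sum (Multiset.mapAddMonoidHom fun v : U => g • v)
        (fun i => ({t i, -t i} : Multiset U)) Finset.univ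
    rw [h4]
    refine Finset.sum_congr rfl fun i _ => ?_
    simp [smul_neg]
  have hp : Perms G t := perms_of (fun u h => neg_ne u h) t hstab
  have hmemR : ∀ u, u ∈ R ↔ ∃ i, PM u (t i) := by
    intro u
    rw [hRt]
    unfold dbl
    rw [Multiset.mem_sum]
    constructor
    · rintro ⟨i, _, hi⟩
      refine ⟨i, ?_⟩
      simpa [PM] using hi
    · rintro ⟨i, hi⟩
      refine ⟨i, Finset.mem_univ _, ?_⟩
      simpa [PM] using hi
  have hfin : (pairs t).Finite := by
    refine Set.Finite.subset (s := (R.toFinset : Set U)) (Finset.finite_toSet _) ?_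
    rintro u hu
    rw [Finset.mem_coe, Multiset.mem_toFinset]
    exact (hmemR u).2 hu
  obtain ⟨B, hB⟩ := exists_form (G := G) K.w (pairs t) hfin (by
    rintro g u ⟨i, hi⟩
    obtain ⟨f, hf⟩ := hp g
    exact ⟨f i, (PM.smul g hi).trans (hf i)⟩) (fun u _ => K.kron u)
  have hfix : ∀ g : G, PM (g • b) b :=
    core2 t hB hp h1 h2 hc n2 n3 n4 n23 n24 n34 m24 m34
  have d4 : v0 - v1 = b + b := by
    have e0 : v0 = b - a1 - a2 := by
      have : v0 - (b - a1 - a2) = 0 := by rw [← h2]; abel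
      exact sub_eq_zero.1 this
    have e1 : v1 = -(a1 + a2 + b) := by
      have : v1 + (a1 + a2 + b) = 0 := by rw [← h1]; abel
      exact eq_neg_of_add_eq_zero_left this
    rw [e0, e1]; abel
  have s4 : v0 + v1 = -((a1 + a2) + (a1 + a2)) := by
    have e0 : v0 = b - a1 - a2 := by
      have : v0 - (b - a1 - a2) = 0 := by rw [← h2]; abel
      exact sub_eq_zero.1 this
    have e1 : v1 = -(a1 + a2 + b) := by
      have : v1 + (a1 + a2 + b) = 0 := by rw [← h1]; abel
      exact eq_neg_of_add_eq_zero_left this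
    rw [e0, e1]; abel
  have n01 : ¬ PM v0 v1 := by
    rintro (h | h)
    · rw [h, sub_self] at d4
      exact n4 (two_ne b d4.symm)
    · rw [h, neg_add_cancel] at s4
      exact n23 (two_ne _ (neg_eq_zero.1 s4.symm))
  have nb1 : ¬ PM v1 b := by
    intro h
    obtain ⟨g, hg⟩ := hc
    exact n01 ((hg.symm.trans (PM.smul g h)).trans ((hfix g).trans h.symm))
  have nb0 : ¬ PM v0 b := by
    intro h
    obtain ⟨g, hg⟩ := hc
    have h3 : PM (g⁻¹ • v0) v1 := by
      have := PM.smul g⁻¹ hg.symm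
      rwa [inv_smul_smul] at this
    exact nb1 ((h3.symm.trans (PM.smul g⁻¹ h)).trans (hfix g⁻¹))
  have nbb : b ≠ -b := fun h => n4 (neg_ne b h)
  have hcnt : cnt b R = 1 := by
    unfold cnt
    rw [hRt, count_dbl, Fin.sum_univ_five]
    have c0 : ¬ b = v0 := fun h => nb0 (Or.inl h.symm)
    have c0' : ¬ b = -v0 := fun h => nb0 (Or.inr (by rw [h, neg_neg]))
    have c1 : ¬ b = v1 := fun h => nb1 (Or.inl h.symm)
    have c1' : ¬ b = -v1 := fun h => nb1 (Or.inr (by rw [h, neg_neg]))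
    have c2 : ¬ b = a1 := fun h => m24 h.symm
    have c2' : ¬ b = -a1 := fun h => n24 (by rw [h]; exact add_neg_cancel a1)
    have c3 : ¬ b = a2 := fun h => m34 h.symm
    have c3' : ¬ b = -a2 := fun h => n34 (by rw [h]; exact add_neg_cancel a2)
    simp only [ht, Matrix.cons_val_zero, Matrix.cons_val_one, Matrix.cons_val]
    rw [if_neg c0, if_neg c0', if_neg c1, if_neg c1', if_neg c2, if_neg c2', if_neg c3,
      if_neg c3', if_pos trivial, if_neg nbb]
  have hbR : b ∈ R := (hmemR b).2 ⟨4, Or.inl rfl⟩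
  have hwb : K.w b ≠ 0 := by
    intro h0
    apply n4
    apply K.kron
    intro g
    rcases hfix g with h | h
    · rw [h, h0]
    · rw [h, map_neg, h0, neg_zero]
  have hD : ∀ d ∈ K.D, d • b = b := by
    intro d hd
    rcases hfix d with h | h
    · exact h
    · exfalso
      have h3 := K.wD d hd b
      rw [h, map_neg] at h3
      exact hwb (by linarith)
  have horb : orb K.D b = {b} := by
    ext y
    constructor
    · rintro ⟨d, hd, rfl⟩
      exact hD d hd
    · rintro rfl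
      exact ⟨1, K.D.one_mem, (one_smul _ _).symm⟩
  obtain ⟨n, hn⟩ := hR.ht b hbR
  rw [hcnt, horb, Set.ncard_singleton] at hn
  have hle := hR.le_one b hbR
  have hw1 : K.w b = 1 ∨ K.w b = -1 := by
    rw [abs_le] at hle
    push_cast at hn
    have h5 : (n : ℝ) < 2 := by nlinarith
    have h6 : n < 2 := by exact_mod_cast h5
    have h7 : n = 0 ∨ n = 1 := by omega
    rcases h7 with rfl | rfl
    · right
      push_cast at hn
      linarith
    · left
      push_cast at hn
      linarith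
  -- the contradiction
  have hRs : ∀ g : G, ∀ u ∈ R, g • u ∈ R := by
    intro g u hu
    rw [← hR.stable g]
    exact Multiset.mem_map_of_mem _ hu
  have h0R : v0 ∈ R := (hmemR v0).2 ⟨0, Or.inl rfl⟩
  have h1R : v1 ∈ R := (hmemR v1).2 ⟨1, Or.inl rfl⟩
  have hsum : v0 + v1 = 0 := by
    apply K.kron
    intro g
    have e1 := hR.le_one _ (hRs g v0 h0R)
    have e2 := hR.le_one _ (hRs g v1 h1R)
    rw [abs_le] at e1 e2
    have e3 : K.w (g • v0) - K.w (g • v1) = K.w (g • b) + K.w (g • b) := by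
      rw [← map_sub, ← smul_sub, d4, smul_add, map_add]
    have e4 : K.w (g • b) = 1 ∨ K.w (g • b) = -1 := by
      rcases hfix g with h | h
      · rw [h]; exact hw1
      · rw [h, map_neg]
        rcases hw1 with h' | h'
        · right; rw [h']
        · left; rw [h', neg_neg]
    rw [smul_add, map_add]
    rcases e4 with h | h
    · rw [h] at e3; linarith
    · rw [h] at e3; linarith
  rw [hsum] at s4
  exact n23 (two_ne _ (neg_eq_zero.1 s4.symm))

end Pool.T5
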