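import Mathlib

/-!
# An invariant quadratic form

`G` acts on the abelian group `U`, `S` is a finite `G`-stable set, `w : U → ℝ` is additive and the
functions `u ↦ w (g u)` separate the points of the group generated by `S`.  Then there is a positive
definite invariant symmetric bilinear form.
-/

namespace Pool.T5

variable {U G : Type} [AddCommGroup U] [Group G] [DistribMulAction G U]

/-- A positive definite `G`-invariant form on the group generated by `S`. -/
structure Form (G : Type) {U : Type} [AddCommGroup U] [Group G] [DistribMulAction G U]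
    (S : Set U) (B : U → U → ℝ) : Prop where
  add_left : ∀ u v x, B (u + v) x = B u x + B v x
  symm : ∀ u v, B u v = B v u
  nonneg : ∀ u, 0 ≤ B u u
  pos : ∀ u ∈ AddSubgroup.closure S, B u u = 0 → u = 0
  inv : ∀ (g : G), ∀ u ∈ AddSubgroup.closure S, ∀ v ∈ AddSubgroup.closure S,
    B (g • u) (g • v) = B u v

theorem exists_form (w : U →+ ℝ) (S : Set U) (hSf : S.Finite)
    (hS : ∀ g : G, ∀ u ∈ S, g • u ∈ S)
    (hK : ∀ u ∈ AddSubgroup.closure S, (∀ g : G, w (g • u) = 0) → u = 0) :
    ∃ B : U → U → ℝ, Form G S B := by
  classical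
  haveI : Finite S := hSf
  let F : G → (S → S) := fun g s => ⟨g • (s : U), hS g s s.2⟩
  have hfin : (Set.range F).Finite := Set.toFinite _
  haveI : Fintype (Set.range F) := hfin.fintype
  let rep : Set.range F → G := fun f => Classical.choose f.2
  have hrep : ∀ f : Set.range F, F (rep f) = f := fun f => Classical.choose_spec f.2
  -- elements of `G` with the same image act in the same way on the closure
  have hact : ∀ g g' : G, F g = F g' → ∀ u ∈ AddSubgroup.closure S, g • u = g' • u := by
    intro g g' h u hu
    induction hu using AddSubgroup.closure_induction with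
    | mem x hx =>
      have := congrArg Subtype.val (congrFun h ⟨x, hx⟩)
      exact this
    | zero => rw [smul_zero, smul_zero]
    | add x y _ _ hx hy => rw [smul_add, smul_add, hx, hy]
    | neg x _ hx => rw [smul_neg, smul_neg, hx]
  have hFmul : ∀ g g' h : G, F g = F g' → F (g * h) = F (g' * h) := by
    intro g g' h hgg
    funext s
    apply Subtype.ext
    change (g * h) • (s : U) = (g' * h) • (s : U)
    rw [mul_smul, mul_smul]
    exact congrArg Subtype.val (congrFun hgg ⟨h • (s : U), hS h s s.2⟩)
  let B : U → U → ℝ := fun u v => ∑ f : Set.range F, w (rep f • u) * w (rep f • v)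
  refine ⟨B, ?_, ?_, ?_, ?_, ?_⟩
  · intro u v x
    change ∑ f, w (rep f • (u + v)) * w (rep f • x)
      = ∑ f, w (rep f • u) * w (rep f • x) + ∑ f, w (rep f • v) * w (rep f • x)
    rw [← Finset.sum_add_distrib]
    refine Finset.sum_congr rfl fun f _ => ?_
    rw [smul_add, map_add]
    ring
  · intro u v
    refine Finset.sum_congr rfl fun f _ => ?_
    rw [mul_comm]
  · intro u
    exact Finset.sum_nonneg fun f _ => mul_self_nonneg _
  · intro u hu h0
    refine hK u hu fun g => ?_
    have h1 := (Finset.sum_eq_zero_iff_of_nonneg (fun f _ => mul_self_nonneg _)).1 h0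
    let f : Set.range F := ⟨F g, g, rfl⟩
    have h2 : w (rep f • u) * w (rep f • u) = 0 := h1 f (Finset.mem_univ _)
    have h3 : rep f • u = g • u := hact _ _ (hrep f) u hu
    rw [h3] at h2
    exact mul_self_eq_zero.1 h2
  · intro g u hu v hv
    let φ : Set.range F → Set.range F := fun f => ⟨F (rep f * g), _, rfl⟩
    have hφi : Function.Injective φ := by
      intro f f' h
      have h1 : F (rep f * g) = F (rep f' * g) := congrArg Subtype.val h
      have h2 := hFmul _ _ g⁻¹ h1
      rw [mul_inv_cancel_right, mul_inv_cancel_right] at h2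
      apply Subtype.ext
      rw [← hrep f, ← hrep f', h2]
    have hφb : Function.Bijective φ := Finite.injective_iff_bijective.1 hφi
    have h3 : ∀ f, ∀ x ∈ AddSubgroup.closure S, rep f • (g • x) = rep (φ f) • x := by
      intro f x hx
      rw [← mul_smul]
      exact (hact _ _ (hrep (φ f)) x hx).symm
    change ∑ f, w (rep f • (g • u)) * w (rep f • (g • v)) = ∑ f, w (rep f • u) * w (rep f • v)
    rw [← hφb.sum_comp (fun f => w (rep f • u) * w (rep f • v))]
    refine Finset.sum_congr rfl fun f _ => ?_
    rw [h3 f u hu, h3 f v hv]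

namespace Form

variable {S : Set U} {B : U → U → ℝ}

theorem add_right (hB : Form G S B) (u v x : U) : B u (v + x) = B u v + B u x := by
  rw [hB.symm u (v + x), hB.add_left, hB.symm v u, hB.symm x u]

theorem zero_left (hB : Form G S B) (x : U) : B 0 x = 0 := by
  have := hB.add_left 0 0 x
  rw [add_zero] at this
  linarith

theorem neg_left (hB : Form G S B) (u x : U) : B (-u) x = -B u x := by
  have := hB.add_left (-u) u x
  rw [neg_add_cancel, hB.zero_left] at this
  linarith

theorem neg_right (hB : Form G S B) (u x : U) : B u (-x) = -B u x := by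
  rw [hB.symm, hB.neg_left, hB.symm]

theorem sub_left (hB : Form G S B) (u v x : U) : B (u - v) x = B u x - B v x := by
  rw [sub_eq_add_neg, hB.add_left, hB.neg_left]; ring

theorem sub_right (hB : Form G S B) (u v x : U) : B u (v - x) = B u v - B u x := by
  rw [sub_eq_add_neg, hB.add_right, hB.neg_right]; ring

theorem two (hB : Form G S B) {u : U} (hu : u ∈ AddSubgroup.closure S) (h : u + u = 0) : u = 0 := by
  have h1 : B (u + u) (u + u) = 0 := by rw [h, hB.zero_left]
  rw [hB.add_left, hB.add_right] at h1
  exact hB.pos u hu (by linarith)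

theorem two_inj (hB : Form G S B) {u v : U} (hu : u ∈ AddSubgroup.closure S)
    (hv : v ∈ AddSubgroup.closure S) (h : u + u = v + v) : u = v := by
  have h1 : (u - v) + (u - v) = 0 := by
    rw [sub_add_sub_comm, h, sub_self]
  exact sub_eq_zero.1 (hB.two (AddSubgroup.sub_mem _ hu hv) h1)

theorem inv' (hB : Form G S B) (g : G) {u : U} (hu : u ∈ AddSubgroup.closure S) :
    B (g • u) (g • u) = B u u := hB.inv g u hu u hu

theorem neg_neg (hB : Form G S B) (u : U) : B (-u) (-u) = B u u := by
  rw [hB.neg_left, hB.neg_right, _root_.neg_neg]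

theorem posS (hB : Form G S B) {u : U} (hu : u ∈ AddSubgroup.closure S) (h : u ≠ 0) :
    0 < B u u :=
  lt_of_le_of_ne (hB.nonneg u) fun h1 => h (hB.pos u hu h1.symm)

end Form

end Pool.T5
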