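import Pool.Agent.Work.MP_223b32_t5.Core
import Pool.Agent.Work.MP_223b32_t4.Interface

/-!
# Dimension five: the signs
-/

namespace Pool.T5

open Pool.T4

variable {U G : Type} [AddCommGroup U] [Group G] [DistribMulAction G U]

theorem fiber_perm {ι Q : Type} [Fintype ι] (a b : ι → Q)
    (h : ∀ q, Nat.card {i // a i = q} = Nat.card {i // b i = q}) :
    ∃ f : Equiv.Perm ι, ∀ i, a i = b (f i) := by
  classical
  have e : ∀ q, Nonempty ({i // a i = q} ≃ {i // b i = q}) := fun q =>
    ⟨Classical.choice (Finite.card_eq.1 (h q))⟩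
  let E := fun q => Classical.choice (e q)
  let f : ι ≃ ι := (Equiv.sigmaFiberEquiv a).symm.trans
    ((Equiv.sigmaCongrRight E).trans (Equiv.sigmaFiberEquiv b))
  refine ⟨f, fun i => ?_⟩
  have h1 : f i = (E (a i) ⟨i, rfl⟩).1 := rfl
  rw [h1]
  exact (E (a i) ⟨i, rfl⟩).2.symm

/-- The classes of vectors up to sign. -/
def pmSetoid (U : Type) [AddCommGroup U] : Setoid U where
  r := PM
  iseqv := ⟨fun _ => Or.inl rfl, PM.symm, PM.trans⟩

/-- The multiset of all the `± t i`. -/
def dbl {ι : Type} [Fintype ι] (t : ι → U) : Multiset U :=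
  ∑ i, ({t i, -t i} : Multiset U)

theorem count_dbl {ι : Type} [Fintype ι] [DecidableEq U] (t : ι → U) (u : U) :
    (dbl t).count u = ∑ i, ((if u = t i then 1 else 0) + (if u = -t i then 1 else 0)) := by
  unfold dbl
  rw [Multiset.count_sum']
  refine Finset.sum_congr rfl fun i _ => ?_
  rw [Multiset.insert_eq_cons, Multiset.count_cons, Multiset.count_singleton]
  ring

theorem card_fiber {ι : Type} [Fintype ι] (h2 : ∀ u : U, u = -u → u = 0) (t t' : ι → U)
    (h : dbl t = dbl t') (u : U) :
    Nat.card {i // PM (t i) u} = Nat.card {i // PM (t' i) u} := by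
  classical
  have e : ∀ s : ι → U, Nat.card {i // PM (s i) u}
      = ∑ i, (if PM (s i) u then 1 else 0) := by
    intro s
    rw [Nat.card_eq_fintype_card, Fintype.card_subtype, Finset.card_filter]
  rw [e, e]
  have h1 := congrArg (Multiset.count u) h
  rw [count_dbl, count_dbl] at h1
  by_cases hu : u = -u
  · have hu0 := h2 u hu
    subst hu0
    have e2 : ∀ s : ι → U, ∑ i, ((if (0:U) = s i then 1 else 0) + (if (0:U) = -s i then 1 else 0))
        = 2 * ∑ i, (if PM (s i) 0 then 1 else 0) := by
      intro s
      rw [Finset.mul_sum]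
      refine Finset.sum_congr rfl fun i _ => ?_
      by_cases hs : s i = 0
      · rw [hs]; simp [PM]
      · have hs' : ¬ PM (s i) 0 := by
          rintro (h | h)
          · exact hs h
          · exact hs (by rw [h, neg_zero])
        rw [if_neg hs', if_neg (fun h => hs h.symm), if_neg (fun h => hs (by
          rw [← neg_neg (s i), ← h, neg_zero])), mul_zero, add_zero]
    rw [e2, e2] at h1
    omega
  · have e2 : ∀ s : ι → U, ∑ i, ((if u = s i then 1 else 0) + (if u = -s i then 1 else 0))
        = ∑ i, (if PM (s i) u then 1 else 0) := by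
      intro s
      refine Finset.sum_congr rfl fun i _ => ?_
      by_cases h1 : u = s i
      · have h3 : ¬ u = -s i := fun h => hu (by
          have : -s i = -u := by rw [← h1]
          rw [← this]; exact h)
        have h4 : PM (s i) u := Or.inl h1.symm
        rw [if_pos h1, if_neg h3, if_pos h4]
      · by_cases h3 : u = -s i
        · have h4 : PM (s i) u := Or.inr (by rw [h3, neg_neg])
          rw [if_neg h1, if_pos h3, if_pos h4]
        · have : ¬ PM (s i) u := by
            rintro (h | h)
            · exact h1 h.symm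
            · exact h3 (by rw [h, neg_neg])
          rw [if_neg h1, if_neg h3, if_neg this]
    rw [e2, e2] at h1
    exact h1

theorem perms_of {ι : Type} [Fintype ι] (h2 : ∀ u : U, u = -u → u = 0) (t : ι → U)
    (h : ∀ g : G, dbl (fun i => g • t i) = dbl t) : Perms G t := by
  intro g
  let Q := Quotient (pmSetoid U)
  let mk : U → Q := fun u => Quotient.mk (pmSetoid U) u
  have hmk : ∀ u v : U, mk u = mk v ↔ PM u v := fun u v => Quotient.eq (r := pmSetoid U)
  obtain ⟨f, hf⟩ := fiber_perm (fun i => mk (g • t i)) (fun i => mk (t i)) (by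
    intro q
    induction q using Quotient.inductionOn with
    | h u =>
      have h3 := card_fiber h2 _ _ (h g) u
      have e1 : ∀ s : ι → U, Nat.card {i // mk (s i) = Quotient.mk (pmSetoid U) u}
          = Nat.card {i // PM (s i) u} := by
        intro s
        refine Nat.card_congr (Equiv.subtypeEquivRight fun i => ?_)
        exact hmk _ _
      rw [e1, e1]
      exact h3)
  exact ⟨f, fun i => (hmk _ _).1 (hf i)⟩

theorem Perms.congr {ι : Type} {t t' : ι → U} (h : Perms G t) (σ : Equiv.Perm ι)
    (hσ : ∀ i, PM (t' i) (t (σ i))) : Perms G t' := by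
  intro g
  obtain ⟨f, hf⟩ := h g
  refine ⟨(σ.trans f).trans σ.symm, fun i => ?_⟩
  have h1 := PM.smul g (hσ i)
  have h2 := hf (σ i)
  have h3 : PM (t (f (σ i))) (t' (((σ.trans f).trans σ.symm) i)) := by
    have := (hσ (((σ.trans f).trans σ.symm) i)).symm
    have e : σ (((σ.trans f).trans σ.symm) i) = f (σ i) := by
      simp
    rwa [e] at this
  exact (h1.trans h2).trans h3

theorem pairs_congr {ι : Type} {t t' : ι → U} (σ : Equiv.Perm ι)
    (hσ : ∀ i, PM (t' i) (t (σ i))) : pairs t' = pairs t := by
  ext u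
  constructor
  · rintro ⟨i, hi⟩
    exact ⟨σ i, hi.trans (hσ i)⟩
  · rintro ⟨i, hi⟩
    refine ⟨σ.symm i, hi.trans ?_⟩
    have := (hσ (σ.symm i)).symm
    rwa [Equiv.apply_symm_apply] at this

end Pool.T5
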