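import Pool.Agent.Work.MP_223b32_t5.Flip

/-!
# Dimension five: all conjugates of the relation are plus or minus the relation, or the exception
-/

namespace Pool.T5

open Pool.T4

/-- `x` or `-x` -/
def sg {U : Type} [AddCommGroup U] (b : Bool) (x : U) : U := if b then x else -x

theorem sg_true {U : Type} [AddCommGroup U] (x : U) : sg true x = x := rfl
theorem sg_false {U : Type} [AddCommGroup U] (x : U) : sg false x = -x := rfl

theorem sub12 {U : Type} (a b c d : U) : ({a, b} : Multiset U) ≤ {a, b, c, d} := by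
  change a ::ₘ {b} ≤ a ::ₘ b ::ₘ {c, d}
  refine Multiset.cons_le_cons a ?_
  rw [← Multiset.cons_zero b]
  exact Multiset.cons_le_cons b (Multiset.zero_le _)

theorem swap23 {U : Type} (a b c d : U) : ({a, b, c, d} : Multiset U) = {a, c, b, d} := by
  change a ::ₘ b ::ₘ c ::ₘ {d} = a ::ₘ c ::ₘ b ::ₘ {d}
  rw [Multiset.cons_swap b c]

theorem swap34 {U : Type} (a b c d : U) : ({a, b, c, d} : Multiset U) = {a, b, d, c} := by
  change a ::ₘ b ::ₘ {c, d} = a ::ₘ b ::ₘ {d, c}
  rw [Multiset.pair_comm c d]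

theorem swap12 {U : Type} (a b c d : U) : ({a, b, c, d} : Multiset U) = {b, a, c, d} := by
  change a ::ₘ b ::ₘ {c, d} = b ::ₘ a ::ₘ {c, d}
  rw [Multiset.cons_swap a b]

theorem sub13 {U : Type} (a b c d : U) : ({a, c} : Multiset U) ≤ {a, b, c, d} := by
  rw [swap23]; exact sub12 a c b d

theorem sub14 {U : Type} (a b c d : U) : ({a, d} : Multiset U) ≤ {a, b, c, d} := by
  rw [swap34]; exact sub13 a b d c

theorem sub23 {U : Type} (a b c d : U) : ({b, c} : Multiset U) ≤ {a, b, c, d} := by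
  rw [swap12]; exact sub13 b a c d

theorem sub24 {U : Type} (a b c d : U) : ({b, d} : Multiset U) ≤ {a, b, c, d} := by
  rw [swap12]; exact sub14 b a c d

theorem sub34 {U : Type} (a b c d : U) : ({c, d} : Multiset U) ≤ {a, b, c, d} := by
  rw [swap23]; exact sub24 a c b d

theorem stepA {U : Type} [AddCommGroup U] [Module ℚ U] (x1 x2 x3 x4 : U) (J : Multiset U)
    (hJ : J = {x1, x2, x3, x4}) (hn : NoPair J) (h : x1 + x2 + x3 + x4 = 0) (T : Multiset U)
    (y1 y2 y3 y4 : Bool) (hT : T = {sg y1 x1, sg y2 x2, sg y3 x3, sg y4 x4})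
    (hs : sg y1 x1 + sg y2 x2 + sg y3 x3 + sg y4 x4 = 0) : T = J ∨ T = ng J := by
  have hng : ng J = {-x1, -x2, -x3, -x4} := by rw [hJ]; simp [ng]
  rw [hng, hT]
  have p12 : x1 + x2 ≠ 0 := hn x1 x2 (by rw [hJ]; exact sub12 x1 x2 x3 x4)
  have p13 : x1 + x3 ≠ 0 := hn x1 x3 (by rw [hJ]; exact sub13 x1 x2 x3 x4)
  have p14 : x1 + x4 ≠ 0 := hn x1 x4 (by rw [hJ]; exact sub14 x1 x2 x3 x4)
  rw [hJ]
  cases y1 <;> cases y2 <;> cases y3 <;> cases y4 <;> simp only [sg_true, sg_false] at hs ⊢
  · right; trivial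
  · have e : x4 + x4 = (x1 + x2 + x3 + x4) + (-x1 + -x2 + -x3 + x4) := by abel
    rw [h, hs, add_zero] at e
    have e0 := two_ne _ e
    right; rw [e0, neg_zero]
  · have e : x3 + x3 = (x1 + x2 + x3 + x4) + (-x1 + -x2 + x3 + -x4) := by abel
    rw [h, hs, add_zero] at e
    have e0 := two_ne _ e
    right; rw [e0, neg_zero]
  · exfalso
    have e : (x1 + x2) + (x1 + x2) = (x1 + x2 + x3 + x4) - (-x1 + -x2 + x3 + x4) := by abel
    rw [h, hs, sub_zero] at e
    exact p12 (two_ne _ e)
  · have e : x2 + x2 = (x1 + x2 + x3 + x4) + (-x1 + x2 + -x3 + -x4) := by abel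
    rw [h, hs, add_zero] at e
    have e0 := two_ne _ e
    right; rw [e0, neg_zero]
  · exfalso
    have e : (x1 + x3) + (x1 + x3) = (x1 + x2 + x3 + x4) - (-x1 + x2 + -x3 + x4) := by abel
    rw [h, hs, sub_zero] at e
    exact p13 (two_ne _ e)
  · exfalso
    have e : (x1 + x4) + (x1 + x4) = (x1 + x2 + x3 + x4) - (-x1 + x2 + x3 + -x4) := by abel
    rw [h, hs, sub_zero] at e
    exact p14 (two_ne _ e)
  · have e : x1 + x1 = (x1 + x2 + x3 + x4) - (-x1 + x2 + x3 + x4) := by abel
    rw [h, hs, sub_zero] at e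
    have e0 := two_ne _ e
    left; rw [e0, neg_zero]
  · have e : x1 + x1 = (x1 + x2 + x3 + x4) + (x1 + -x2 + -x3 + -x4) := by abel
    rw [h, hs, add_zero] at e
    have e0 := two_ne _ e
    right; rw [e0, neg_zero]
  · exfalso
    have e : (x1 + x4) + (x1 + x4) = (x1 + x2 + x3 + x4) + (x1 + -x2 + -x3 + x4) := by abel
    rw [h, hs, add_zero] at e
    exact p14 (two_ne _ e)
  · exfalso
    have e : (x1 + x3) + (x1 + x3) = (x1 + x2 + x3 + x4) + (x1 + -x2 + x3 + -x4) := by abel
    rw [h, hs, add_zero] at e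
    exact p13 (two_ne _ e)
  · have e : x2 + x2 = (x1 + x2 + x3 + x4) - (x1 + -x2 + x3 + x4) := by abel
    rw [h, hs, sub_zero] at e
    have e0 := two_ne _ e
    left; rw [e0, neg_zero]
  · exfalso
    have e : (x1 + x2) + (x1 + x2) = (x1 + x2 + x3 + x4) + (x1 + x2 + -x3 + -x4) := by abel
    rw [h, hs, add_zero] at e
    exact p12 (two_ne _ e)
  · have e : x3 + x3 = (x1 + x2 + x3 + x4) - (x1 + x2 + -x3 + x4) := by abel
    rw [h, hs, sub_zero] at e
    have e0 := two_ne _ e
    left; rw [e0, neg_zero]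
  · have e : x4 + x4 = (x1 + x2 + x3 + x4) - (x1 + x2 + x3 + -x4) := by abel
    rw [h, hs, sub_zero] at e
    have e0 := two_ne _ e
    left; rw [e0, neg_zero]
  · left; trivial
theorem dbl_congr {U ι : Type} [AddCommGroup U] [Fintype ι] {t t' : ι → U} (σ : Equiv.Perm ι)
    (hσ : ∀ i, PM (t' i) (t (σ i))) : dbl t' = dbl t := by
  unfold dbl
  rw [← Equiv.sum_comp σ (fun i => ({t i, -t i} : Multiset U))]
  refine Finset.sum_congr rfl fun i _ => ?_
  rcases hσ i with h | h
  · rw [h]
  · rw [h, neg_neg, Multiset.pair_comm]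

/-- The exceptional vectors. -/
def Exc {U : Type} [AddCommGroup U] (R : Multiset U) : Prop :=
  ∃ a b : U, R = {0, 0, a, -a, b, -b, a + b, -(a + b), a - b, -(a - b)}

theorem dbl_five {U : Type} [AddCommGroup U] (a b c d e : U) :
    dbl (![a, b, c, d, e] : Fin 5 → U) = {a, -a, b, -b, c, -c, d, -d, e, -e} := by
  unfold dbl
  rw [Fin.sum_univ_five]
  rfl

/-- One flipped vector. -/
theorem stepL {G U : Type} [Group G] [AddCommGroup U] [Module ℚ U] [DistribMulAction G U]
    (K : Core G U) (R : Multiset U) (hR : IsR K R) (w0 x1 a1 a2 b : U)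
    (hRt : R = dbl (![w0, x1, a1, a2, b] : Fin 5 → U))
    (h1 : x1 + a1 + a2 + b = 0) (h2 : w0 + a1 + a2 - b = 0)
    (hc : ∃ g : G, PM (g • x1) w0)
    (n23 : a1 + a2 ≠ 0) (n24 : a1 + b ≠ 0)
    (n34 : a2 + b ≠ 0) (m24 : a1 ≠ b) (m34 : a2 ≠ b) : Exc R ∨ b = 0 := by
  by_cases hb : b = 0
  · exact Or.inr hb
  left
  by_cases h3 : a1 = 0
  · refine ⟨a2, b, ?_⟩
    have e1 : x1 = -(a2 + b) := by
      have : x1 + (a2 + b) = 0 := by rw [← h1, h3]; abel
      exact eq_neg_of_add_eq_zero_left this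
    have e0 : w0 = -(a2 - b) := by
      have : w0 + (a2 - b) = 0 := by rw [← h2, h3]; abel
      exact eq_neg_of_add_eq_zero_left this
    have e : R = dbl (![0, a2, b, a2 + b, a2 - b] : Fin 5 → U) := by
      rw [hRt]
      refine dbl_congr (σ := ⟨![4, 3, 0, 1, 2], ![2, 3, 4, 1, 0], by decide, by decide⟩) ?_
      intro i
      fin_cases i
      · exact Or.inr e0
      · exact Or.inr e1
      · exact Or.inl h3
      · exact Or.inl rfl
      · exact Or.inl rfl
    rw [e, dbl_five, neg_zero]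
  by_cases h4 : a2 = 0
  · refine ⟨a1, b, ?_⟩
    have e1 : x1 = -(a1 + b) := by
      have : x1 + (a1 + b) = 0 := by rw [← h1, h4]; abel
      exact eq_neg_of_add_eq_zero_left this
    have e0 : w0 = -(a1 - b) := by
      have : w0 + (a1 - b) = 0 := by rw [← h2, h4]; abel
      exact eq_neg_of_add_eq_zero_left this
    have e : R = dbl (![0, a1, b, a1 + b, a1 - b] : Fin 5 → U) := by
      rw [hRt]
      refine dbl_congr (σ := ⟨![4, 3, 1, 0, 2], ![3, 2, 4, 1, 0], by decide, by decide⟩) ?_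
      intro i
      fin_cases i
      · exact Or.inr e0
      · exact Or.inr e1
      · exact Or.inl rfl
      · exact Or.inl h4
      · exact Or.inl rfl
    rw [e, dbl_five, neg_zero]
  exact absurd (flip K R hR w0 x1 a1 a2 b hRt h1 h2 hc h3 h4 hb n23 n24 n34 m24 m34) not_false

theorem stepB {G U : Type} [Group G] [AddCommGroup U] [Module ℚ U] [DistribMulAction G U]
    (K : Core G U) (R : Multiset U) (hR : IsR K R) (v0 x1 x2 x3 x4 : U) (J : Multiset U)
    (hRt : R = dbl (![v0, x1, x2, x3, x4] : Fin 5 → U))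
    (hJ : J = {x1, x2, x3, x4}) (hn : NoPair J) (h : x1 + x2 + x3 + x4 = 0) (T : Multiset U)
    (hnT : NoPair T) (hc : ∃ g : G, PM (g • x1) v0)
    (y0 y2 y3 y4 : Bool) (hT : T = {sg y0 v0, sg y2 x2, sg y3 x3, sg y4 x4})
    (hs : sg y0 v0 + sg y2 x2 + sg y3 x3 + sg y4 x4 = 0) : (T = J ∨ T = ng J) ∨ Exc R := by
  have hng : ng J = {-x1, -x2, -x3, -x4} := by rw [hJ]; simp [ng]
  have p23 : x2 + x3 ≠ 0 := hn x2 x3 (by rw [hJ]; exact sub23 x1 x2 x3 x4)
  have p24 : x2 + x4 ≠ 0 := hn x2 x4 (by rw [hJ]; exact sub24 x1 x2 x3 x4)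
  have p34 : x3 + x4 ≠ 0 := hn x3 x4 (by rw [hJ]; exact sub34 x1 x2 x3 x4)
  have q23 : sg y2 x2 + sg y3 x3 ≠ 0 := hnT _ _ (by rw [hT]; exact sub23 _ _ _ _)
  have q24 : sg y2 x2 + sg y4 x4 ≠ 0 := hnT _ _ (by rw [hT]; exact sub24 _ _ _ _)
  have q34 : sg y3 x3 + sg y4 x4 ≠ 0 := hnT _ _ (by rw [hT]; exact sub34 _ _ _ _)
  have hw : PM (sg y0 v0) v0 := by
    cases y0
    · exact Or.inr rfl
    · exact Or.inl rfl
  generalize sg y0 v0 = w at hT hs hw
  have hc' : ∃ g : G, PM (g • x1) w := by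
    obtain ⟨g, hg⟩ := hc
    exact ⟨g, hg.trans hw.symm⟩
  have hc'' : ∃ g : G, PM (g • x1) (-w) := by
    obtain ⟨g, hg⟩ := hc'
    exact ⟨g, hg.trans (Or.inr (neg_neg w).symm)⟩
  rw [hng, hT, hJ]
  cases y2 <;> cases y3 <;> cases y4 <;> simp only [sg_true, sg_false] at hs q23 q24 q34 ⊢
  · left; right
    have e : w + x1 = (w + -x2 + -x3 + -x4) + (x1 + x2 + x3 + x4) := by abel
    rw [h, hs, add_zero] at e
    rw [eq_neg_of_add_eq_zero_left e]
  · have hw2 : PM (-w) v0 := by
      rcases hw with hw | hw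
      · exact Or.inr (by rw [hw])
      · exact Or.inl (by rw [hw, neg_neg])
    rcases stepL K R hR (-w) x1 x2 x3 x4 (by
        rw [hRt]
        refine (dbl_congr (σ := ⟨![0, 1, 2, 3, 4], ![0, 1, 2, 3, 4], by decide, by decide⟩) ?_).symm
        intro i
        fin_cases i
        · exact hw2
        all_goals exact Or.inl rfl)
      h
      (by
        have e : -w + x2 + x3 - x4 = -(w + -x2 + -x3 + x4) := by abel
        rw [e, hs, neg_zero])
      hc'' p23 p24 p34 (fun e => q24 (by rw [e]; exact neg_add_cancel _)) (fun e => q34 (by rw [e]; exact neg_add_cancel _)) with hE | hb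
    · exact Or.inr hE
    · left; right
      have e : w + x1 = (w + -x2 + -x3 + x4) + (x1 + x2 + x3 + x4) - (x4 + x4) := by abel
      rw [h, hs, add_zero, hb, add_zero, sub_zero] at e
      rw [eq_neg_of_add_eq_zero_left e, hb, neg_zero]
  · have hw2 : PM (-w) v0 := by
      rcases hw with hw | hw
      · exact Or.inr (by rw [hw])
      · exact Or.inl (by rw [hw, neg_neg])
    rcases stepL K R hR (-w) x1 x2 x4 x3 (by
        rw [hRt]
        refine (dbl_congr (σ := ⟨![0, 1, 2, 4, 3], ![0, 1, 2, 4, 3], by decide, by decide⟩) ?_).symm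
        intro i
        fin_cases i
        · exact hw2
        all_goals exact Or.inl rfl)
      (by rw [← h]; abel)
      (by
        have e : -w + x2 + x4 - x3 = -(w + -x2 + x3 + -x4) := by abel
        rw [e, hs, neg_zero])
      hc'' p24 p23 (by rw [add_comm]; exact p34) (fun e => q23 (by rw [e]; exact neg_add_cancel _)) (fun e => q34 (by rw [e]; exact add_neg_cancel _)) with hE | hb
    · exact Or.inr hE
    · left; right
      have e : w + x1 = (w + -x2 + x3 + -x4) + (x1 + x2 + x3 + x4) - (x3 + x3) := by abel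
      rw [h, hs, add_zero, hb, add_zero, sub_zero] at e
      rw [eq_neg_of_add_eq_zero_left e, hb, neg_zero]
  · rcases stepL K R hR (w) x1 x3 x4 x2 (by
        rw [hRt]
        refine (dbl_congr (σ := ⟨![0, 1, 3, 4, 2], ![0, 1, 4, 2, 3], by decide, by decide⟩) ?_).symm
        intro i
        fin_cases i
        · exact hw
        all_goals exact Or.inl rfl)
      (by rw [← h]; abel)
      (by
        have e : w + x3 + x4 - x2 = (w + -x2 + x3 + x4) := by abel
        rw [e, hs])
      hc' p34 (by rw [add_comm]; exact p23) (by rw [add_comm]; exact p24) (fun e => q23 (by rw [e]; exact neg_add_cancel _)) (fun e => q24 (by rw [e]; exact neg_add_cancel _)) with hE | hb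
    · exact Or.inr hE
    · left; left
      have e : w - x1 = (w + -x2 + x3 + x4) - (x1 + x2 + x3 + x4) + (x2 + x2) := by abel
      rw [h, hs, sub_zero, hb, add_zero, add_zero] at e
      rw [sub_eq_zero.1 e, hb, neg_zero]
  · have hw2 : PM (-w) v0 := by
      rcases hw with hw | hw
      · exact Or.inr (by rw [hw])
      · exact Or.inl (by rw [hw, neg_neg])
    rcases stepL K R hR (-w) x1 x3 x4 x2 (by
        rw [hRt]
        refine (dbl_congr (σ := ⟨![0, 1, 3, 4, 2], ![0, 1, 4, 2, 3], by decide, by decide⟩) ?_).symm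
        intro i
        fin_cases i
        · exact hw2
        all_goals exact Or.inl rfl)
      (by rw [← h]; abel)
      (by
        have e : -w + x3 + x4 - x2 = -(w + x2 + -x3 + -x4) := by abel
        rw [e, hs, neg_zero])
      hc'' p34 (by rw [add_comm]; exact p23) (by rw [add_comm]; exact p24) (fun e => q23 (by rw [e]; exact add_neg_cancel _)) (fun e => q24 (by rw [e]; exact add_neg_cancel _)) with hE | hb
    · exact Or.inr hE
    · left; right
      have e : w + x1 = (w + x2 + -x3 + -x4) + (x1 + x2 + x3 + x4) - (x2 + x2) := by abel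
      rw [h, hs, add_zero, hb, add_zero, sub_zero] at e
      rw [eq_neg_of_add_eq_zero_left e, hb, neg_zero]
  · rcases stepL K R hR (w) x1 x2 x4 x3 (by
        rw [hRt]
        refine (dbl_congr (σ := ⟨![0, 1, 2, 4, 3], ![0, 1, 2, 4, 3], by decide, by decide⟩) ?_).symm
        intro i
        fin_cases i
        · exact hw
        all_goals exact Or.inl rfl)
      (by rw [← h]; abel)
      (by
        have e : w + x2 + x4 - x3 = (w + x2 + -x3 + x4) := by abel
        rw [e, hs])
      hc' p24 p23 (by rw [add_comm]; exact p34) (fun e => q23 (by rw [e]; exact add_neg_cancel _)) (fun e => q34 (by rw [e]; exact neg_add_cancel _)) with hE | hb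
    · exact Or.inr hE
    · left; left
      have e : w - x1 = (w + x2 + -x3 + x4) - (x1 + x2 + x3 + x4) + (x3 + x3) := by abel
      rw [h, hs, sub_zero, hb, add_zero, add_zero] at e
      rw [sub_eq_zero.1 e, hb, neg_zero]
  · rcases stepL K R hR (w) x1 x2 x3 x4 (by
        rw [hRt]
        refine (dbl_congr (σ := ⟨![0, 1, 2, 3, 4], ![0, 1, 2, 3, 4], by decide, by decide⟩) ?_).symm
        intro i
        fin_cases i
        · exact hw
        all_goals exact Or.inl rfl)
      h
      (by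
        have e : w + x2 + x3 - x4 = (w + x2 + x3 + -x4) := by abel
        rw [e, hs])
      hc' p23 p24 p34 (fun e => q24 (by rw [e]; exact add_neg_cancel _)) (fun e => q34 (by rw [e]; exact add_neg_cancel _)) with hE | hb
    · exact Or.inr hE
    · left; left
      have e : w - x1 = (w + x2 + x3 + -x4) - (x1 + x2 + x3 + x4) + (x4 + x4) := by abel
      rw [h, hs, sub_zero, hb, add_zero, add_zero] at e
      rw [sub_eq_zero.1 e, hb, neg_zero]
  · left; left
    have e : w - x1 = (w + x2 + x3 + x4) - (x1 + x2 + x3 + x4) := by abel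
    rw [h, hs, sub_zero] at e
    rw [sub_eq_zero.1 e]

theorem noPair_tr {G U : Type} [Group G] [AddCommGroup U] [DistribMulAction G U] (g : G)
    {J : Multiset U} (h : NoPair J) : NoPair (tr g J) := by
  intro a b hab hsum
  have h1 : ({g⁻¹ • a, g⁻¹ • b} : Multiset U) ≤ J := by
    have h2 := Multiset.map_le_map (f := fun v : U => g⁻¹ • v) hab
    unfold tr at h2
    rw [Multiset.map_map] at h2
    have h3 : (fun v : U => g⁻¹ • v) ∘ (fun v : U => g • v) = id := by
      funext v
      simp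
    rw [h3, Multiset.map_id] at h2
    simpa using h2
  refine h _ _ h1 ?_
  rw [← smul_add, hsum, smul_zero]

/-- (SGN5) -/
def Stmt_SGN5 : Prop :=
  ∀ (G U : Type) [Group G] [AddCommGroup U] [Module ℚ U] [DistribMulAction G U] (K : Core G U)
    (R J : Multiset U) (v0 : U), IsR K R → J.card = 4 → R = J + ng J + {v0, -v0} → J.sum = 0 →
    NoPair J → (∀ g : G, tr g J = J ∨ tr g J = ng J) ∨ Exc R

theorem p_SGN5 : Stmt_SGN5 := by
  intro G U _ _ _ _ K R J v0 hR hcard hRJ hsum hn
  by_cases hE : Exc R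
  · exact Or.inr hE
  left
  intro g
  -- the elements of `J`
  obtain ⟨x1, hx1⟩ : ∃ x, x ∈ J := Multiset.card_pos_iff_exists_mem.1 (by omega)
  obtain ⟨J', hJ1⟩ := Multiset.exists_cons_of_mem hx1
  have hJ2 : J'.card = 3 := by
    rw [hJ1, Multiset.card_cons] at hcard
    omega
  obtain ⟨x2, x3, x4, hJ3⟩ := Multiset.card_eq_three.1 hJ2
  have hJ : J = {x1, x2, x3, x4} := by rw [hJ1, hJ3]; rfl
  clear hJ1 hJ2 hJ3 hx1
  have hRt : R = dbl (![v0, x1, x2, x3, x4] : Fin 5 → U) := by
    have hng : ng ({x1, x2, x3, x4} : Multiset U) = {-x1, -x2, -x3, -x4} := by simp [ng]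
    rw [dbl_five, hRJ, hJ, hng]
    simp only [Multiset.insert_eq_cons, ← Multiset.singleton_add]
    abel
  have hh : x1 + x2 + x3 + x4 = 0 := by
    rw [hJ] at hsum
    simpa [add_assoc] using hsum
  have htr : ∀ k : G, tr k J = {k • x1, k • x2, k • x3, k • x4} := by
    intro k
    rw [hJ]
    unfold tr
    simp
  have hstab : ∀ k : G, dbl (fun i => k • (![v0, x1, x2, x3, x4] : Fin 5 → U) i)
      = dbl (![v0, x1, x2, x3, x4] : Fin 5 → U) := by
    intro k
    have h3 := hR.stable k
    rw [hRt] at h3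
    refine Eq.trans ?_ h3
    unfold dbl tr
    have h4 : Multiset.map (fun v => k • v)
        (∑ i, ({(![v0, x1, x2, x3, x4] : Fin 5 → U) i, -(![v0, x1, x2, x3, x4] : Fin 5 → U) i} :
          Multiset U))
        = ∑ i, Multiset.map (fun v => k • v)
          ({(![v0, x1, x2, x3, x4] : Fin 5 → U) i, -(![v0, x1, x2, x3, x4] : Fin 5 → U) i} :
            Multiset U) :=
      map_sum (Multiset.mapAddMonoidHom fun v : U => k • v)
        (fun i => ({(![v0, x1, x2, x3, x4] : Fin 5 → U) i,
          -(![v0, x1, x2, x3, x4] : Fin 5 → U) i} : Multiset U)) Finset.univ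
    rw [h4]
    refine Finset.sum_congr rfl fun i _ => ?_
    simp [smul_neg]
  have hp : Perms G (![v0, x1, x2, x3, x4] : Fin 5 → U) := perms_of (fun u h => neg_ne u h) _ hstab
  obtain ⟨f, hf⟩ := hp g
  have hsg : ∀ i, ∃ b : Bool, g • (![v0, x1, x2, x3, x4] : Fin 5 → U) i
      = sg b ((![v0, x1, x2, x3, x4] : Fin 5 → U) (f i)) := by
    intro i
    rcases hf i with h | h
    · exact ⟨true, h⟩
    · exact ⟨false, h⟩
  choose c hc using hsg
  have hsum5 : ∑ i, ({g • (![v0, x1, x2, x3, x4] : Fin 5 → U) i} : Multiset U)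
      = ∑ j, ({sg (c (f.symm j)) ((![v0, x1, x2, x3, x4] : Fin 5 → U) j)} : Multiset U) := by
    rw [← Equiv.sum_comp f (fun j => ({sg (c (f.symm j))
      ((![v0, x1, x2, x3, x4] : Fin 5 → U) j)} : Multiset U))]
    refine Finset.sum_congr rfl fun i _ => ?_
    rw [Equiv.symm_apply_apply, hc i]
  generalize hy : (fun j => c (f.symm j)) = y at hsum5
  have hy' : ∀ j, c (f.symm j) = y j := fun j => congrFun hy j
  simp only [hy'] at hsum5
  rw [Fin.sum_univ_five, Fin.sum_univ_five] at hsum5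
  change ({g • v0} : Multiset U) + {g • x1} + {g • x2} + {g • x3} + {g • x4}
    = {sg (y 0) v0} + {sg (y 1) x1} + {sg (y 2) x2} + {sg (y 3) x3} + {sg (y 4) x4} at hsum5
  have h0 := hc 0
  have h0y : c 0 = y (f 0) := by rw [← hy' (f 0), Equiv.symm_apply_apply]
  rw [h0y] at h0
  have hf0 := hf 0
  have hT : ({g • v0} : Multiset U) + tr g J = {g • v0} + {g • x1} + {g • x2} + {g • x3} + {g • x4} := by
    rw [htr]
    simp only [Multiset.insert_eq_cons, ← Multiset.singleton_add]
    abel
  rw [hsum5] at hT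
  have hsumT : (tr g J).sum = 0 := by
    have h1 : (tr g J).sum = g • J.sum := by
      unfold tr
      exact (map_multiset_sum (DistribSMul.toAddMonoidHom U g) J).symm
    rw [h1, hsum, smul_zero]
  have hnT : NoPair (tr g J) := noPair_tr g hn
  have hfour : ∀ a b c d : U, tr g J = {a, b, c, d} → a + b + c + d = 0 := by
    intro a b c d h
    rw [h] at hsumT
    simpa [add_assoc] using hsumT
  have hR2 : ∀ σ : Equiv.Perm (Fin 5), ∀ t' : Fin 5 → U,
      (∀ i, t' i = (![v0, x1, x2, x3, x4] : Fin 5 → U) (σ i)) → R = dbl t' := by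
    intro σ t' h
    rw [hRt]
    exact (dbl_congr σ (fun i => Or.inl (h i))).symm
  have hcj : ∀ x, PM (g • v0) x → ∃ k : G, PM (k • x) v0 := by
    intro x hx
    refine ⟨g⁻¹, ?_⟩
    have := PM.smul g⁻¹ hx.symm
    rwa [inv_smul_smul] at this
  generalize f 0 = k at h0 hf0
  fin_cases k
  · -- `gJ` consists of elements `± x`
    change g • v0 = sg (y 0) v0 at h0
    rw [h0] at hT
    have hT2 : tr g J = {sg (y 1) x1, sg (y 2) x2, sg (y 3) x3, sg (y 4) x4} := by
      apply add_left_cancel (a := ({sg (y 0) v0} : Multiset U))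
      rw [hT]
      simp only [Multiset.insert_eq_cons, ← Multiset.singleton_add]
      abel
    exact stepA x1 x2 x3 x4 J hJ hn hh (tr g J) _ _ _ _ hT2 (hfour _ _ _ _ hT2)
  · change g • v0 = sg (y 1) x1 at h0
    change PM (g • v0) x1 at hf0
    rw [h0] at hT
    have hT2 : tr g J = {sg (y 0) v0, sg (y 2) x2, sg (y 3) x3, sg (y 4) x4} := by
      apply add_left_cancel (a := ({sg (y 1) x1} : Multiset U))
      rw [hT]
      simp only [Multiset.insert_eq_cons, ← Multiset.singleton_add]
      abel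
    exact (stepB K R hR v0 x1 x2 x3 x4 J hRt hJ hn hh (tr g J) hnT (hcj _ hf0) _ _ _ _ hT2
      (hfour _ _ _ _ hT2)).resolve_right hE
  · change g • v0 = sg (y 2) x2 at h0
    change PM (g • v0) x2 at hf0
    rw [h0] at hT
    have hT2 : tr g J = {sg (y 0) v0, sg (y 1) x1, sg (y 3) x3, sg (y 4) x4} := by
      apply add_left_cancel (a := ({sg (y 2) x2} : Multiset U))
      rw [hT]
      simp only [Multiset.insert_eq_cons, ← Multiset.singleton_add]
      abel
    refine (stepB K R hR v0 x2 x1 x3 x4 J (hR2 (Equiv.swap 1 2) _ ?_)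
      (by rw [hJ]; exact swap12 _ _ _ _) hn (by rw [← hh]; abel) (tr g J) hnT (hcj _ hf0)
      _ _ _ _ hT2 (hfour _ _ _ _ hT2)).resolve_right hE
    intro i
    fin_cases i <;> rfl
  · change g • v0 = sg (y 3) x3 at h0
    change PM (g • v0) x3 at hf0
    rw [h0] at hT
    have hT2 : tr g J = {sg (y 0) v0, sg (y 2) x2, sg (y 1) x1, sg (y 4) x4} := by
      apply add_left_cancel (a := ({sg (y 3) x3} : Multiset U))
      rw [hT]
      simp only [Multiset.insert_eq_cons, ← Multiset.singleton_add]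
      abel
    refine (stepB K R hR v0 x3 x2 x1 x4 J (hR2 (Equiv.swap 1 3) _ ?_)
      (by rw [hJ, swap12, swap23, swap12]) hn (by rw [← hh]; abel) (tr g J) hnT (hcj _ hf0)
      _ _ _ _ hT2 (hfour _ _ _ _ hT2)).resolve_right hE
    intro i
    fin_cases i <;> rfl
  · change g • v0 = sg (y 4) x4 at h0
    change PM (g • v0) x4 at hf0
    rw [h0] at hT
    have hT2 : tr g J = {sg (y 0) v0, sg (y 2) x2, sg (y 3) x3, sg (y 1) x1} := by
      apply add_left_cancel (a := ({sg (y 4) x4} : Multiset U))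
      rw [hT]
      simp only [Multiset.insert_eq_cons, ← Multiset.singleton_add]
      abel
    refine (stepB K R hR v0 x4 x2 x3 x1 J (hR2 (Equiv.swap 1 4) _ ?_)
      (by
        rw [hJ]
        simp only [Multiset.insert_eq_cons, ← Multiset.singleton_add]
        abel) hn (by rw [← hh]; abel) (tr g J) hnT (hcj _ hf0)
      _ _ _ _ hT2 (hfour _ _ _ _ hT2)).resolve_right hE
    intro i
    fin_cases i <;> rfl

end Pool.T5
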